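import Mathlib
import Pool.Agent.H759R2.Kad.Props3
import Pool.Agent.H71R2.Kad.Block

/-!
The crude bound for larger amplifications: `‖w ⊗ id_{mL}‖ ≤ m ‖w ⊗ id_L‖`.
-/

open scoped ComplexOrder InnerProductSpace ComplexConjugate
open Finset

noncomputable section

namespace H759R2.Kad

universe u v

namespace A18

open Block

section mat

variable {A : Type u} [CStarAlgebra A] [PartialOrder A] [StarOrderedRing A]
variable {α β : Type} [Fintype α] [DecidableEq α] [Fintype β] [DecidableEq β]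

theorem norm_put_one (i j : α) : ‖put i j (1 : CStarMatrix β β A)‖ ≤ 1 := by
  have h : ‖put i j (1 : CStarMatrix β β A)‖ * ‖put i j (1 : CStarMatrix β β A)‖ ≤ 1 := by
    rw [← CStarRing.norm_star_mul_self, put_star, put_mul_put, norm_put, star_one, one_mul]
    exact norm_one_le _
  nlinarith [norm_nonneg (put i j (1 : CStarMatrix β β A))]

theorem norm_blk (Z : CStarMatrix (α × β) (α × β) A) (i j : α) : ‖blk Z i j‖ ≤ ‖Z‖ := by
  have h1 : blk (put j i 1 * Z) j j = blk Z i j := by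
    rw [blk_put_mul, one_mul]
  calc ‖blk Z i j‖ = ‖blk (put j i 1 * Z) j j‖ := by rw [h1]
    _ ≤ ‖put j i 1 * Z‖ := norm_blk_diag _ _
    _ ≤ ‖put j i (1 : CStarMatrix β β A)‖ * ‖Z‖ := norm_mul_le _ _
    _ ≤ 1 * ‖Z‖ := mul_le_mul_of_nonneg_right (norm_put_one j i) (norm_nonneg _)
    _ = ‖Z‖ := one_mul _

end mat

section main

variable {B : Type u} [CStarAlgebra B] [PartialOrder B] [StarOrderedRing B]
variable {K : Type v} [NormedAddCommGroup K] [InnerProductSpace ℂ K]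
variable {α β ι : Type} [Fintype α] [DecidableEq α] [Fintype β] [DecidableEq β]
  [Fintype ι] [DecidableEq ι]

/-- the bound on the product of index sets -/
theorem amp_prod_le (w : B →ₗ[ℂ] (K →L[ℂ] K)) (γ : ℝ) (hγ : 0 ≤ γ)
    (h : ∀ Y : CStarMatrix β β B, ‖amp w β Y‖ ≤ γ * ‖Y‖) (Z : CStarMatrix (α × β) (α × β) B)
    (η : HH (α × β) K) :
    ‖amp w (α × β) Z η‖ ≤ Fintype.card α * γ * ‖Z‖ * ‖η‖ := by
  have h1 : ∀ i, ‖sec i (amp w (α × β) Z η)‖ ^ 2 ≤
      (γ * ‖Z‖) ^ 2 * ((Fintype.card α : ℝ) * ‖η‖ ^ 2) := by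
    intro i
    have h2 : ‖sec i (amp w (α × β) Z η)‖ ≤ (γ * ‖Z‖) * ∑ j, ‖sec j η‖ := by
      rw [sec_amp, Finset.mul_sum]
      refine (norm_sum_le _ _).trans (Finset.sum_le_sum fun j _ => ?_)
      refine (ContinuousLinearMap.le_opNorm _ _).trans ?_
      refine mul_le_mul_of_nonneg_right ?_ (norm_nonneg _)
      exact (h _).trans (mul_le_mul_of_nonneg_left (norm_blk Z i j) hγ)
    have h3 : (∑ j, ‖sec j η‖) ^ 2 ≤ (Fintype.card α : ℝ) * ‖η‖ ^ 2 := by
      rw [← sum_sec η]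
      have := sq_sum_le_card_mul_sum_sq (s := (Finset.univ : Finset α)) (f := fun j => ‖sec j η‖)
      simpa using this
    calc ‖sec i (amp w (α × β) Z η)‖ ^ 2 ≤ ((γ * ‖Z‖) * ∑ j, ‖sec j η‖) ^ 2 :=
          pow_le_pow_left₀ (norm_nonneg _) h2 2
      _ = (γ * ‖Z‖) ^ 2 * (∑ j, ‖sec j η‖) ^ 2 := by ring
      _ ≤ _ := mul_le_mul_of_nonneg_left h3 (by positivity)
  have h4 : ‖amp w (α × β) Z η‖ ^ 2 ≤ (Fintype.card α * γ * ‖Z‖ * ‖η‖) ^ 2 := by
    rw [← sum_sec (amp w (α × β) Z η)]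
    refine (Finset.sum_le_sum fun i _ => h1 i).trans ?_
    rw [Finset.sum_const, Finset.card_univ, nsmul_eq_mul]
    apply le_of_eq
    ring
  exact (pow_le_pow_iff_left₀ (norm_nonneg _) (by positivity) two_ne_zero).mp h4

/-- reindexing is isometric -/
theorem norm_reindex (e : ι ≃ α × β) (X : CStarMatrix ι ι B) :
    ‖CStarMatrix.reindexₐ ℂ B e X‖ = ‖X‖ := by
  exact NonUnitalStarAlgHom.norm_map (CStarMatrix.reindexₐ ℂ B e)
    (CStarMatrix.reindexₐ ℂ B e).injective X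

end main

end A18

open A18

theorem prove3_crude : K_crude.{u, v} := by
  intro B _ _ _ K _ _ _ w L m γ hγ hL X
  let e : Fin m × Fin L ≃ Fin (m * L) := finProdFinEquiv
  refine ContinuousLinearMap.opNorm_le_bound _ (by positivity) fun ξ => ?_
  let η : HH (Fin m × Fin L) K := WithLp.toLp 2 (fun p => ξ (e p))
  have hη : ‖η‖ = ‖ξ‖ := by
    have h1 : ‖η‖ ^ 2 = ‖ξ‖ ^ 2 := by
      rw [PiLp.norm_sq_eq_of_L2, PiLp.norm_sq_eq_of_L2]
      exact e.sum_comp (fun i => ‖ξ i‖ ^ 2)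
    exact (pow_left_inj₀ (norm_nonneg _) (norm_nonneg _) two_ne_zero).mp h1
  have hamp : ‖amp w (Fin (m * L)) X ξ‖ =
      ‖amp w (Fin m × Fin L) (CStarMatrix.reindexₐ ℂ B e.symm X) η‖ := by
    have h1 : ‖amp w (Fin (m * L)) X ξ‖ ^ 2 =
      ‖amp w (Fin m × Fin L) (CStarMatrix.reindexₐ ℂ B e.symm X) η‖ ^ 2 := by
      rw [PiLp.norm_sq_eq_of_L2, PiLp.norm_sq_eq_of_L2]
      rw [← e.sum_comp (fun i => ‖(amp w (Fin (m * L)) X ξ) i‖ ^ 2)]
      refine Finset.sum_congr rfl fun p _ => ?_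
      have h2 : (amp w (Fin (m * L)) X ξ) (e p) =
          (amp w (Fin m × Fin L) (CStarMatrix.reindexₐ ℂ B e.symm X) η) p := by
        rw [amp_apply, amp_apply, ← e.sum_comp]
        rfl
      rw [h2]
    exact (pow_left_inj₀ (norm_nonneg _) (norm_nonneg _) two_ne_zero).mp h1
  rw [hamp]
  refine (amp_prod_le w γ hγ hL _ η).trans ?_
  rw [norm_reindex e.symm X, hη, Fintype.card_fin]

end H759R2.Kad
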